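import Pool.Agent.helper56.CY.Spec

set_option autoImplicit false

namespace Pool.Agent.CY

open Finset CT

theorem RDA_ne {i : Fin 4 → Fin 4} (hi : Function.Injective i) {V : Type} (u : V) {a b : Fin 4} (h : a ≠ b) :
    ((u, i a) : V × Fin 4) ≠ (u, i b) := by
  intro he
  exact h (hi (Prod.mk.inj he).2)

/-- RDA -/
theorem RDA : RDA_stmt := by
  intro V _ L e u v w i j k hT
  have hnd := hT.nd
  simp only [List.nodup_cons, List.mem_cons, not_or] at hnd
  obtain ⟨⟨huv, huw, huL⟩, ⟨hvw, hvL⟩, hwL, _⟩ := hnd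
  have hu : ∀ t : Fin 4, ((u, t) : V × Fin 4) ∈ dts (u :: v :: w :: L).toFinset := by
    intro t
    simp [dts]
  have hw : ∀ t : Fin 4, ((w, t) : V × Fin 4) ∈ dts (u :: v :: w :: L).toFinset := by
    intro t
    simp [dts]
  have hwu : ∀ s t : Fin 4, ((w, s) : V × Fin 4) ≠ (u, t) := by
    intro s t h
    exact huw (Prod.mk.inj h).1.symm
  have n : ∀ {a b : Fin 4}, a ≠ b → ((u, i a) : V × Fin 4) ≠ (u, i b) := fun h => RDA_ne hT.hi u h
  have m : ∀ {a b : Fin 4}, a ≠ b → ((w, k a) : V × Fin 4) ≠ (w, k b) := fun h => RDA_ne hT.hk w h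
  have a1 := join_act hT.act (hu (i 0)) (hu (i 1)) (n (by decide))
  have a2 := join_act a1
    (x := (u, i 2)) (y := (u, i 3))
    (mem_erase.2 ⟨n (by decide), mem_erase.2 ⟨n (by decide), hu _⟩⟩)
    (mem_erase.2 ⟨n (by decide), mem_erase.2 ⟨n (by decide), hu _⟩⟩) (n (by decide))
  have a3 := join_act a2
    (x := (w, k 0)) (y := (w, k 2))
    (mem_erase.2 ⟨hwu _ _, mem_erase.2 ⟨hwu _ _, mem_erase.2 ⟨hwu _ _, mem_erase.2 ⟨hwu _ _, hw _⟩⟩⟩⟩)
    (mem_erase.2 ⟨hwu _ _, mem_erase.2 ⟨hwu _ _, mem_erase.2 ⟨hwu _ _, mem_erase.2 ⟨hwu _ _, hw _⟩⟩⟩⟩)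
    (m (by decide))
  have a4 := join_act a3
    (x := (w, k 1)) (y := (w, k 3))
    (mem_erase.2 ⟨m (by decide), mem_erase.2 ⟨m (by decide),
      mem_erase.2 ⟨hwu _ _, mem_erase.2 ⟨hwu _ _, mem_erase.2 ⟨hwu _ _, mem_erase.2 ⟨hwu _ _, hw _⟩⟩⟩⟩⟩⟩)
    (mem_erase.2 ⟨m (by decide), mem_erase.2 ⟨m (by decide),
      mem_erase.2 ⟨hwu _ _, mem_erase.2 ⟨hwu _ _, mem_erase.2 ⟨hwu _ _, mem_erase.2 ⟨hwu _ _, hw _⟩⟩⟩⟩⟩⟩)
    (m (by decide))
  have hset : ((((((((dts (u :: v :: w :: L).toFinset).erase (u, i 0)).erase (u, i 1)).erase (u, i 2)).erase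
      (u, i 3)).erase (w, k 0)).erase (w, k 2)).erase (w, k 1)).erase (w, k 3) = dts (v :: L).toFinset := by
    have hsi : Function.Surjective i := Finite.injective_iff_surjective.1 hT.hi
    have hsk : Function.Surjective k := Finite.injective_iff_surjective.1 hT.hk
    ext ⟨a, t⟩
    simp only [mem_erase, dts, mem_product, mem_univ, and_true, List.mem_toFinset, List.mem_cons, ne_eq,
      Prod.mk.injEq, not_and]
    constructor
    · rintro ⟨c8, c7, c6, c5, c4, c3, c2, c1, h⟩
      rcases h with h | h | h | h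
      · exfalso
        obtain ⟨s, hs⟩ := hsi t
        fin_cases s
        · exact c1 h hs.symm
        · exact c2 h hs.symm
        · exact c3 h hs.symm
        · exact c4 h hs.symm
      · exact Or.inl h
      · exfalso
        obtain ⟨s, hs⟩ := hsk t
        fin_cases s
        · exact c5 h hs.symm
        · exact c7 h hs.symm
        · exact c6 h hs.symm
        · exact c8 h hs.symm
      · exact Or.inr h
    · intro h
      have hau : a ≠ u := by
        rintro rfl
        rcases h with h | h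
        · exact huv h
        · exact huL h
      have haw : a ≠ w := by
        rintro rfl
        rcases h with h | h
        · exact hvw h.symm
        · exact hwL h
      refine ⟨fun h' => absurd h' haw, fun h' => absurd h' haw, fun h' => absurd h' haw, fun h' => absurd h' haw,
        fun h' => absurd h' hau, fun h' => absurd h' hau, fun h' => absurd h' hau, fun h' => absurd h' hau, ?_⟩
      rcases h with h | h
      · exact Or.inr (Or.inl h)
      · exact Or.inr (Or.inr (Or.inr h))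
  rw [hset] at a4
  exact a4

end Pool.Agent.CY
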